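import Pool.Agent.H168Z.Vershik.Ops

/-!
The group generated by `1 + X` and the shift is amenable, and its graded group algebra over the
field with two elements has exponential growth.
-/

set_option autoImplicit false

namespace Pool.Agent.H168Z.Vershik

lemma X_sq : X * X = 0 := by rw [← Xc_zero]; exact Xc_sq 0

noncomputable def aU : (Module.End F U)ˣ where
  val := 1 + X
  inv := 1 - X
  val_inv := by rw [add_mul, mul_sub, mul_sub, X_sq]; simp
  inv_val := by rw [sub_mul, mul_add, mul_add, X_sq]; simp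

def tU : (Module.End F U)ˣ where
  val := shift 1
  inv := shift (-1)
  val_inv := by rw [shift_mul, ← shift_zero]; rfl
  inv_val := by rw [shift_mul, ← shift_zero]; rfl

/-- The group. -/
noncomputable def Gr : Subgroup (Module.End F U)ˣ := Subgroup.closure {aU, tU}

noncomputable def a : Gr := ⟨aU, Subgroup.subset_closure (Or.inl rfl)⟩

noncomputable def t : Gr := ⟨tU, Subgroup.subset_closure (Or.inr rfl)⟩

lemma gen : Subgroup.closure ({a, t} : Set Gr) = ⊤ := by
  have h := Subgroup.closure_closure_coe_preimage (k := ({aU, tU} : Set (Module.End F U)ˣ))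
  rw [eq_top_iff]
  refine le_trans (le_of_eq h.symm) ?_
  apply Subgroup.closure_mono
  rintro ⟨x, hx⟩ (h | h)
  · left; exact Subtype.ext h
  · right; exact Subtype.ext h

/-- The defining representation. -/
noncomputable def rho : Gr →* Module.End F U := (Units.coeHom _).comp Gr.subtype

lemma rho_inj : Function.Injective rho := fun _ _ h => Subtype.ext (Units.ext h)

lemma rho_a : rho a = 1 + X := rfl
lemma rho_a_inv : rho a⁻¹ = 1 - X := rfl
lemma rho_t : rho t = shift 1 := rfl
lemma rho_t_inv : rho t⁻¹ = shift (-1) := rfl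

lemma rho_t_pow (i : ℕ) : rho (t ^ i) = shift i := by
  induction i with
  | zero => rw [pow_zero, map_one, ← shift_zero]; rfl
  | succ i ih => rw [pow_succ, map_mul, ih, rho_t, shift_mul]; rfl

lemma rho_t_pow_inv (i : ℕ) : rho (t ^ i)⁻¹ = shift (-i) := by
  induction i with
  | zero => rw [pow_zero, inv_one, map_one, ← shift_zero]; rfl
  | succ i ih =>
    rw [pow_succ, mul_inv_rev, map_mul, ih, rho_t_inv, shift_mul]
    congr 1
    push_cast
    ring

lemma rho_conj (i : ℕ) : rho ((t ^ i)⁻¹ * a * t ^ i) = 1 + Xc (-(i : ℤ)) := by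
  rw [map_mul, map_mul, rho_t_pow, rho_t_pow_inv, rho_a, Xc, neg_neg, mul_add, add_mul, mul_one,
    shift_mul, neg_add_cancel, shift_zero]

lemma rho_conj_inv (i : ℕ) : rho ((t ^ i)⁻¹ * a * t ^ i)⁻¹ = 1 - Xc (-(i : ℤ)) := by
  have : ((t ^ i)⁻¹ * a * t ^ i)⁻¹ = (t ^ i)⁻¹ * a⁻¹ * t ^ i := by group
  rw [this, map_mul, map_mul, rho_t_pow, rho_t_pow_inv, rho_a_inv, Xc, neg_neg, mul_sub, sub_mul,
    mul_one, shift_mul, neg_add_cancel, shift_zero]

/-- The stabiliser of the span of words. -/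
noncomputable def stab (N : ℕ) : Subgroup Gr where
  carrier := {g | (∀ x ∈ words N, rho g * x ∈ words N) ∧ ∀ x ∈ words N, rho g⁻¹ * x ∈ words N}
  mul_mem' := by
    rintro g h ⟨hg1, hg2⟩ ⟨hh1, hh2⟩
    refine ⟨fun x hx => ?_, fun x hx => ?_⟩
    · rw [map_mul, mul_assoc]; exact hg1 _ (hh1 x hx)
    · rw [mul_inv_rev, map_mul, mul_assoc]; exact hh2 _ (hg2 x hx)
  one_mem' := ⟨fun x hx => by simpa using hx, fun x hx => by simpa using hx⟩
  inv_mem' := by
    rintro g ⟨hg1, hg2⟩
    exact ⟨hg2, by rwa [inv_inv]⟩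

lemma stab_finite (N : ℕ) : Finite (stab N) := by
  have := words_finite N
  refine Finite.of_injective (fun g : stab N => (⟨rho g.1, ?_⟩ : words N)) ?_
  · simpa using g.2.1 1 (one_mem_words N)
  · intro g h hgh
    exact Subtype.ext (rho_inj (congrArg Subtype.val hgh))

theorem amenable : ∃ μ : Set Gr → ℝ, (∀ S, 0 ≤ μ S) ∧ μ Set.univ = 1 ∧
    (∀ A B : Set Gr, Disjoint A B → μ (A ∪ B) = μ A + μ B) ∧
    ∀ (g : Gr) (S : Set Gr), μ ((fun x => g * x) ⁻¹' S) = μ S := by
  refine exists_mean a t gen fun N => ⟨stab N, stab_finite N, fun i hi => ⟨?_, ?_⟩⟩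
  · intro x hx
    rw [rho_conj, add_mul, one_mul]
    exact Submodule.add_mem _ hx (Xc_mul_mem N i hi x hx)
  · intro x hx
    rw [rho_conj_inv, sub_mul, one_mul]
    exact Submodule.sub_mem _ hx (Xc_mul_mem N i hi x hx)

lemma ring_aux {R : Type} [Ring R] (x y : R) :
    x * y - 1 = (x - 1) * (y - 1) + (x - 1) + (y - 1) := by noncomm_ring

lemma rho_low (g : Gr) : rho g - 1 ∈ Low 1 ∧ rho g⁻¹ - 1 ∈ Low 1 := by
  have hg : g ∈ Subgroup.closure ({a, t} : Set Gr) := by rw [gen]; trivial
  have key : ∀ x y : Module.End F U, x - 1 ∈ Low 1 → y - 1 ∈ Low 1 → x * y - 1 ∈ Low 1 := by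
    intro x y hx hy
    have : x * y - 1 = (x - 1) * (y - 1) + (x - 1) + (y - 1) := ring_aux x y
    have h1 : (x - 1) * (y - 1) ∈ Low (1 + 0) := Low_mul hx (Low_mono hy)
    rw [this]
    exact Submodule.add_mem _ (Submodule.add_mem _ h1 hx) hy
  induction hg using Subgroup.closure_induction with
  | mem x hx =>
    rcases hx with rfl | rfl
    · rw [rho_a, rho_a_inv, add_sub_cancel_left, sub_sub_cancel_left]
      exact ⟨X_low, Submodule.neg_mem _ X_low⟩
    · rw [rho_t, rho_t_inv]
      refine ⟨shift_low, ?_⟩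
      have : shift (-1) - 1 = -(shift (-1) * (shift 1 - 1)) := by
        rw [mul_sub, shift_mul, neg_add_cancel, shift_zero, mul_one, neg_sub]
      rw [this]
      exact Submodule.neg_mem _ (Low_mul (k := 0) (l := 1) (shift_mem (-1)) shift_low)
  | one => simp
  | mul x y _ _ hx hy =>
    rw [mul_inv_rev, map_mul, map_mul]
    exact ⟨key _ _ hx.1 hy.1, key _ _ hy.2 hx.2⟩
  | inv x _ hx => rw [inv_inv]; exact hx.symm

/-- The representation of the group algebra. -/
noncomputable def rhoA : MonoidAlgebra F Gr →ₐ[F] Module.End F U :=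
  MonoidAlgebra.lift F (Module.End F U) Gr rho

lemma rhoA_of (g : Gr) : rhoA (MonoidAlgebra.of F Gr g) = rho g := MonoidAlgebra.lift_of _ _

lemma aug_low (x : MonoidAlgebra F Gr) (hx : x ∈ aug F Gr) : rhoA x ∈ Low 1 := by
  induction hx using Submodule.span_induction with
  | mem x hx =>
    obtain ⟨g, rfl⟩ := hx
    beta_reduce
    rw [map_sub, map_one, rhoA_of]
    exact (rho_low g).1
  | zero => simp
  | add x y _ _ hx hy => rw [map_add]; exact Submodule.add_mem _ hx hy
  | smul c x _ hx => rw [map_smul]; exact Submodule.smul_mem _ _ hx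

lemma aug_pow_low (n : ℕ) : ∀ x ∈ aug F Gr ^ (n + 1), rhoA x ∈ Low (n + 1) := by
  induction n with
  | zero => intro x hx; exact aug_low x (by simpa using hx)
  | succ n ih =>
    intro x hx
    rw [pow_succ] at hx
    induction hx using Submodule.mul_induction_on' with
    | mem_mul_mem x hx y hy => rw [map_mul]; exact Low_mul (ih x hx) (aug_low y hy)
    | add x _ y _ hx hy => rw [map_add]; exact Submodule.add_mem _ hx hy

/-- The element of the group algebra that writes the list `β`. -/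
noncomputable def W : List Bool → MonoidAlgebra F Gr
  | [] => 1
  | b :: β => W β * (MonoidAlgebra.of F Gr (t ^ sel (β.length + 1) b) *
      (MonoidAlgebra.of F Gr a - 1))

lemma W_apply (β : List Bool) : ∀ f : U, rhoA (W β) f ([], 0) = f (β, 0) := by
  induction β with
  | nil => intro f; rw [W, map_one]; rfl
  | cons b β ih =>
    intro f
    rw [W, map_mul, Module.End.mul_apply, ih, map_mul, map_sub, map_one, rhoA_of, rhoA_of,
      rho_t_pow, rho_a, add_sub_cancel_left, select]

/-- The coordinates of an element of the group algebra. -/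
noncomputable def Phi (k : ℕ) : MonoidAlgebra F Gr →ₗ[F] ((Fin k → Bool) → F) where
  toFun x := fun γ => rhoA x (delta (List.ofFn γ)) ([], 0)
  map_add' x y := by funext γ; rw [map_add]; rfl
  map_smul' c x := by funext γ; rw [map_smul]; rfl

lemma Phi_range (k : ℕ) : LinearMap.range (Phi k) = ⊤ := by
  classical
  rw [eq_top_iff, ← (Pi.basisFun F (Fin k → Bool)).span_eq, Submodule.span_le]
  rintro _ ⟨β, rfl⟩
  refine ⟨W (List.ofFn β), funext fun γ => ?_⟩
  change rhoA (W (List.ofFn β)) (delta (List.ofFn γ)) ([], 0) = _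
  rw [W_apply, Pi.basisFun_apply, Pi.single_apply]
  by_cases h : γ = β
  · subst h; simp [delta]
  · have : List.ofFn β ≠ List.ofFn γ := fun e => h (List.ofFn_injective e).symm
    simp [delta, h, this]

lemma Phi_ker (k n : ℕ) (h : 5 * k ≤ n) : aug F Gr ^ (n + 1) ≤ LinearMap.ker (Phi k) := by
  intro x hx
  rw [LinearMap.mem_ker]
  funext γ
  change rhoA x (delta (List.ofFn γ)) ([], 0) = 0
  have h1 : deg (List.ofFn γ) ≤ n := by
    have := deg_le' (List.ofFn γ)
    rw [List.length_ofFn] at this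
    omega
  have h2 := aug_pow_low n x hx 0 _ (Ul_mono (by omega) (delta_mem (List.ofFn γ)))
  rw [Ul_zero _ h2]
  rfl

theorem growth_nat (k n : ℕ) (h : 5 * k ≤ n) :
    2 ^ k ≤ Module.finrank F (MonoidAlgebra F Gr ⧸ aug F Gr ^ (n + 1)) := by
  have := finite_quot (K := F) a t gen n
  have h1 := LinearMap.finrank_range_le ((aug F Gr ^ (n + 1)).liftQ (Phi k) (Phi_ker k n h))
  rw [Submodule.range_liftQ, Phi_range, finrank_top] at h1
  simpa using h1

theorem growth : ∃ c : ℝ, 1 < c ∧ ∃ C : ℝ, 0 < C ∧ ∀ n : ℕ,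
    C * c ^ n ≤ (Module.finrank F (MonoidAlgebra F Gr ⧸ aug F Gr ^ (n + 1)) : ℝ) := by
  refine ⟨11 / 10, by norm_num, 1 / 2, by norm_num, fun n => ?_⟩
  have h1 : ((2 ^ (n / 5) : ℕ) : ℝ) ≤
      (Module.finrank F (MonoidAlgebra F Gr ⧸ aug F Gr ^ (n + 1)) : ℝ) := by
    exact_mod_cast growth_nat (n / 5) n (by omega)
  refine le_trans ?_ h1
  have h2 : (11 / 10 : ℝ) ^ n ≤ (11 / 10 : ℝ) ^ (5 * (n / 5 + 1)) :=
    pow_le_pow_right₀ (by norm_num) (by omega)
  have h3 : (11 / 10 : ℝ) ^ (5 * (n / 5 + 1)) ≤ 2 ^ (n / 5 + 1) := by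
    rw [pow_mul]
    exact pow_le_pow_left₀ (by positivity) (by norm_num) _
  push_cast
  rw [pow_succ] at h3
  linarith

theorem fg : Group.FG Gr := by
  rw [Group.fg_iff]
  exact ⟨{a, t}, gen, Set.toFinite _⟩

end Pool.Agent.H168Z.Vershik
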