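import Mathlib

/-!
An invariant mean on a group generated by `a` and `t` in which finitely many conjugates of `a`
by powers of `t` always lie in a finite subgroup, and finite dimensionality of the quotients of a
group algebra by powers of the augmentation ideal.
-/

set_option autoImplicit false

open Filter Topology

namespace Pool.Agent.H168Z.Vershik

section Mean

variable {G : Type} [Group G]

open Classical in
/-- The proportion of `h` in the finite subgroup `H` with `g * h ∈ S`. -/
noncomputable def prop (H : Subgroup G) [Fintype H] (g : G) (S : Set G) : ℝ :=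
  (∑ h : H, if g * (h : G) ∈ S then (1 : ℝ) else 0) / Fintype.card H

lemma prop_nonneg (H : Subgroup G) [Fintype H] (g : G) (S : Set G) : 0 ≤ prop H g S := by
  unfold prop
  apply div_nonneg _ (Nat.cast_nonneg _)
  exact Finset.sum_nonneg fun h _ => by split_ifs <;> norm_num

lemma card_pos' (H : Subgroup G) [Fintype H] : (0 : ℝ) < Fintype.card H := by
  exact_mod_cast Fintype.card_pos

lemma prop_le_one (H : Subgroup G) [Fintype H] (g : G) (S : Set G) : prop H g S ≤ 1 := by
  classical
  unfold prop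
  rw [div_le_one (card_pos' H)]
  calc _ ≤ ∑ _h : H, (1 : ℝ) := Finset.sum_le_sum fun h _ => by split_ifs <;> norm_num
    _ = _ := by simp

lemma prop_univ (H : Subgroup G) [Fintype H] (g : G) : prop H g Set.univ = 1 := by
  unfold prop
  simp

lemma prop_union (H : Subgroup G) [Fintype H] (g : G) (A B : Set G) (hAB : Disjoint A B) :
    prop H g (A ∪ B) = prop H g A + prop H g B := by
  unfold prop
  rw [← add_div, ← Finset.sum_add_distrib]
  congr 1
  refine Finset.sum_congr rfl fun h _ => ?_
  by_cases h1 : g * (h : G) ∈ A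
  · have h2 : g * (h : G) ∉ B := Set.disjoint_left.1 hAB h1
    simp [h1, h2]
  · by_cases h2 : g * (h : G) ∈ B <;> simp [h1, h2]

lemma prop_pre (H : Subgroup G) [Fintype H] (g x : G) (S : Set G) :
    prop H g ((fun y => x * y) ⁻¹' S) = prop H (x * g) S := by
  unfold prop
  congr 1
  refine Finset.sum_congr rfl fun h _ => ?_
  by_cases h1 : x * (g * (h : G)) ∈ S
  · rw [if_pos (by exact h1), if_pos (by rwa [mul_assoc])]
  · rw [if_neg (by exact h1), if_neg (by rwa [mul_assoc])]

lemma prop_mul (H : Subgroup G) [Fintype H] (g k : G) (hk : k ∈ H) (S : Set G) :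
    prop H (g * k) S = prop H g S := by
  unfold prop
  congr 1
  refine Fintype.sum_equiv (Equiv.mulLeft (⟨k, hk⟩ : H)) _ _ fun h => ?_
  by_cases h1 : g * (k * (h : G)) ∈ S
  · rw [if_pos (by rwa [mul_assoc]), if_pos (by exact h1)]
  · rw [if_neg (by rwa [mul_assoc]), if_neg (by exact h1)]

theorem exists_mean (a t : G) (hgen : Subgroup.closure ({a, t} : Set G) = ⊤)
    (hfin : ∀ n : ℕ, ∃ H : Subgroup G, Finite H ∧ ∀ i : ℕ, i ≤ n → (t ^ i)⁻¹ * a * t ^ i ∈ H) :
    ∃ μ : Set G → ℝ, (∀ S, 0 ≤ μ S) ∧ μ Set.univ = 1 ∧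
      (∀ A B : Set G, Disjoint A B → μ (A ∪ B) = μ A + μ B) ∧
      ∀ (g : G) (S : Set G), μ ((fun x => g * x) ⁻¹' S) = μ S := by
  choose H hH1 hH2 using hfin
  let _ : ∀ n, Fintype (H n) := fun n => @Fintype.ofFinite _ (hH1 n)
  let m : ℕ → Set G → ℝ := fun n S =>
    (∑ i ∈ Finset.range (n + 1), prop (H n) (t ^ i) S) / ((n : ℝ) + 1)
  have hpos : ∀ n : ℕ, (0 : ℝ) < (n : ℝ) + 1 := fun n => by positivity
  have hm0 : ∀ n S, 0 ≤ m n S := fun n S =>
    div_nonneg (Finset.sum_nonneg fun i _ => prop_nonneg _ _ _) (hpos n).le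
  have hm1 : ∀ n S, m n S ≤ 1 := by
    intro n S
    simp only [m]
    rw [div_le_one (hpos n)]
    calc _ ≤ ∑ _i ∈ Finset.range (n + 1), (1 : ℝ) := Finset.sum_le_sum fun i _ => prop_le_one _ _ _
      _ = _ := by simp
  let 𝒰 : Ultrafilter ℕ := hyperfilter ℕ
  have h𝒰 : (𝒰 : Filter ℕ) ≤ atTop := by
    rw [← Nat.cofinite_eq_atTop]; exact hyperfilter_le_cofinite
  have hex : ∀ S, ∃ x, Tendsto (fun n => m n S) 𝒰 (𝓝 x) := by
    intro S
    obtain ⟨x, -, hx⟩ := (isCompact_Icc (a := (0 : ℝ)) (b := 1)).ultrafilter_le_nhds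
      (𝒰.map fun n => m n S) (by
        rw [Ultrafilter.coe_map, le_principal_iff, mem_map]
        exact Eventually.of_forall fun n => ⟨hm0 n S, hm1 n S⟩)
    exact ⟨x, hx⟩
  choose μ hμ using hex
  have ha : ∀ S, μ ((fun x => a * x) ⁻¹' S) = μ S := by
    intro S
    refine tendsto_nhds_unique (hμ _) ((hμ S).congr fun n => ?_)
    simp only [m]
    congr 1
    refine Finset.sum_congr rfl fun i hi => ?_
    rw [prop_pre, ← prop_mul (H n) (t ^ i) _ (hH2 n i (by simpa [Nat.lt_succ_iff] using hi))]
    congr 1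
    group
  have ht : ∀ S, μ ((fun x => t * x) ⁻¹' S) = μ S := by
    intro S
    have h1 : Tendsto (fun n : ℕ => (prop (H n) (t ^ (n + 1)) S - prop (H n) (t ^ 0) S) /
        ((n : ℝ) + 1)) atTop (𝓝 0) := by
      refine squeeze_zero_norm (a := fun n : ℕ => 1 / ((n : ℝ) + 1)) (fun n => ?_)
        tendsto_one_div_add_atTop_nhds_zero_nat
      rw [norm_div, Real.norm_of_nonneg (hpos n).le]
      apply div_le_div_of_nonneg_right _ (hpos n).le
      rw [Real.norm_eq_abs, abs_le]
      have := prop_nonneg (H n) (t ^ (n + 1)) S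
      have := prop_nonneg (H n) (t ^ 0) S
      have := prop_le_one (H n) (t ^ (n + 1)) S
      have := prop_le_one (H n) (t ^ 0) S
      constructor <;> linarith
    have h2 := (hμ S).add (h1.mono_left h𝒰)
    rw [add_zero] at h2
    refine tendsto_nhds_unique (hμ _) (h2.congr fun n => ?_)
    simp only [m]
    rw [← add_div]
    congr 1
    have h3 : ∀ i, prop (H n) (t ^ i) ((fun x => t * x) ⁻¹' S) = prop (H n) (t ^ (i + 1)) S := by
      intro i
      rw [prop_pre, pow_succ']
    simp only [h3]
    rw [Finset.sum_range_succ' (fun i => prop (H n) (t ^ i) S),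
      Finset.sum_range_succ (fun i => prop (H n) (t ^ (i + 1)) S)]
    ring
  refine ⟨μ, fun S => ge_of_tendsto' (hμ S) fun n => hm0 n S, ?_, ?_, ?_⟩
  · refine tendsto_nhds_unique (hμ _) (tendsto_const_nhds.congr fun n => ?_)
    simp only [m, prop_univ]
    simp only [Finset.sum_const, Finset.card_range, nsmul_eq_mul, mul_one]
    push_cast
    exact (div_self (hpos n).ne').symm
  · intro A B hAB
    refine tendsto_nhds_unique (hμ _) (((hμ A).add (hμ B)).congr fun n => ?_)
    simp only [m]
    rw [← add_div, ← Finset.sum_add_distrib]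
    congr 1
    exact Finset.sum_congr rfl fun i _ => (prop_union _ _ _ _ hAB).symm
  · intro g
    have hg : g ∈ Subgroup.closure ({a, t} : Set G) := by rw [hgen]; trivial
    induction hg using Subgroup.closure_induction with
    | mem x hx =>
      rcases hx with rfl | rfl
      · exact ha
      · exact ht
    | one => intro S; simp
    | mul x y _ _ hx hy =>
      intro S
      have : (fun z => x * y * z) ⁻¹' S = (fun z => y * z) ⁻¹' ((fun z => x * z) ⁻¹' S) := by
        ext z; simp [mul_assoc]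
      rw [this, hy, hx]
    | inv x _ hx =>
      intro S
      rw [← hx ((fun z => x⁻¹ * z) ⁻¹' S)]
      congr 1
      ext z; simp

end Mean

section Fin

variable {K : Type} [Field K] {G : Type} [Group G]

/-- The augmentation ideal, as a subspace. -/
noncomputable def aug (K : Type) [Field K] (G : Type) [Group G] :
    Submodule K (MonoidAlgebra K G) :=
  Submodule.span K (Set.range (fun g : G => MonoidAlgebra.of K G g - 1))

lemma mem_aug (g : G) : MonoidAlgebra.of K G g - 1 ∈ aug K G :=
  Submodule.subset_span ⟨g, rfl⟩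

lemma top_le_aug : (⊤ : Submodule K (MonoidAlgebra K G)) ≤ 1 ⊔ aug K G := by
  intro x _
  induction x using MonoidAlgebra.induction_on with
  | of g =>
    have : MonoidAlgebra.of K G g = 1 + (MonoidAlgebra.of K G g - 1) := by abel
    rw [this]
    exact Submodule.add_mem_sup (Submodule.mem_one.2 ⟨1, map_one _⟩) (mem_aug g)
  | add x y hx hy => exact Submodule.add_mem _ (hx trivial) (hy trivial)
  | smul c x hx => exact Submodule.smul_mem _ _ (hx trivial)

lemma aug_le (a t : G) (hgen : Subgroup.closure ({a, t} : Set G) = ⊤) :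
    aug K G ≤ Submodule.span K {MonoidAlgebra.of K G a - 1, MonoidAlgebra.of K G t - 1} ⊔
      aug K G * aug K G := by
  rw [aug, Submodule.span_le]
  rintro _ ⟨g, rfl⟩
  have hg : g ∈ Subgroup.closure ({a, t} : Set G) := by rw [hgen]; trivial
  change _ ∈ Submodule.span K {MonoidAlgebra.of K G a - 1, MonoidAlgebra.of K G t - 1} ⊔
      aug K G * aug K G
  induction hg using Subgroup.closure_induction with
  | mem x hx =>
    apply Submodule.mem_sup_left
    apply Submodule.subset_span
    rcases hx with rfl | rfl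
    · exact Or.inl rfl
    · exact Or.inr rfl
  | one =>
    beta_reduce
    rw [map_one, sub_self]
    exact Submodule.zero_mem _
  | mul x y _ _ hx hy =>
    have : MonoidAlgebra.of K G (x * y) - 1 = (MonoidAlgebra.of K G x - 1) +
        (MonoidAlgebra.of K G y - 1) + (MonoidAlgebra.of K G x - 1) *
        (MonoidAlgebra.of K G y - 1) := by
      rw [map_mul]; noncomm_ring
    beta_reduce
    rw [this]
    exact Submodule.add_mem _ (Submodule.add_mem _ hx hy)
      (Submodule.mem_sup_right (Submodule.mul_mem_mul (mem_aug x) (mem_aug y)))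
  | inv x _ hx =>
    have h1 : MonoidAlgebra.of K G x⁻¹ * MonoidAlgebra.of K G x = 1 := by
      rw [← map_mul, inv_mul_cancel, map_one]
    have : MonoidAlgebra.of K G x⁻¹ - 1 = -(MonoidAlgebra.of K G x - 1) -
        (MonoidAlgebra.of K G x⁻¹ - 1) * (MonoidAlgebra.of K G x - 1) := by
      rw [sub_mul, mul_sub, h1]; noncomm_ring
    beta_reduce
    rw [this]
    exact Submodule.sub_mem _ (Submodule.neg_mem _ hx)
      (Submodule.mem_sup_right (Submodule.mul_mem_mul (mem_aug _) (mem_aug x)))

lemma aug_pow_le (V : Submodule K (MonoidAlgebra K G)) (hV : V ≤ aug K G)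
    (h : aug K G ≤ V ⊔ aug K G * aug K G) (n : ℕ) :
    aug K G ^ (n + 1) ≤ V ^ (n + 1) ⊔ aug K G ^ (n + 2) := by
  induction n with
  | zero => simpa [pow_two] using h
  | succ n ih =>
    have hVn : V ^ (n + 1) ≤ aug K G ^ (n + 1) := pow_le_pow_left' hV _
    calc aug K G ^ (n + 2) = aug K G ^ (n + 1) * aug K G := pow_succ _ _
      _ ≤ (V ^ (n + 1) ⊔ aug K G ^ (n + 2)) * aug K G := mul_le_mul' ih le_rfl
      _ = V ^ (n + 1) * aug K G ⊔ aug K G ^ (n + 3) := by rw [Submodule.sup_mul, ← pow_succ]
      _ ≤ V ^ (n + 1) * (V ⊔ aug K G * aug K G) ⊔ aug K G ^ (n + 3) :=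
        sup_le_sup_right (mul_le_mul' le_rfl h) _
      _ = (V ^ (n + 2) ⊔ V ^ (n + 1) * (aug K G * aug K G)) ⊔ aug K G ^ (n + 3) := by
        rw [Submodule.mul_sup, ← pow_succ]
      _ ≤ V ^ (n + 2) ⊔ aug K G ^ (n + 3) := by
        refine sup_le (sup_le le_sup_left (le_sup_of_le_right ?_)) le_sup_right
        calc V ^ (n + 1) * (aug K G * aug K G) ≤ aug K G ^ (n + 1) * (aug K G * aug K G) :=
            mul_le_mul' hVn le_rfl
          _ = aug K G ^ (n + 3) := by rw [← mul_assoc, ← pow_succ, ← pow_succ]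

theorem finite_quot (a t : G) (hgen : Subgroup.closure ({a, t} : Set G) = ⊤) (n : ℕ) :
    Module.Finite K (MonoidAlgebra K G ⧸ aug K G ^ (n + 1)) := by
  set V : Submodule K (MonoidAlgebra K G) :=
    Submodule.span K {MonoidAlgebra.of K G a - 1, MonoidAlgebra.of K G t - 1} with hVdef
  have hV : V ≤ aug K G := by
    rw [hVdef, Submodule.span_le]
    rintro _ (rfl | rfl)
    · exact mem_aug a
    · exact mem_aug t
  have hVfg : V.FG := Submodule.fg_span (Set.toFinite _)
  have key : ∃ W : Submodule K (MonoidAlgebra K G), W.FG ∧ ⊤ ≤ W ⊔ aug K G ^ (n + 1) := by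
    induction n with
    | zero =>
      refine ⟨1, ?_, by simpa using top_le_aug⟩
      rw [Submodule.one_eq_span]
      exact Submodule.fg_span (Set.toFinite _)
    | succ n ih =>
      obtain ⟨W, hW, h⟩ := ih
      refine ⟨W ⊔ V ^ (n + 1), hW.sup (hVfg.pow _), h.trans ?_⟩
      rw [sup_assoc]
      exact sup_le_sup_left (aug_pow_le V hV (aug_le a t hgen) n) _
  obtain ⟨W, hW, h⟩ := key
  refine ⟨?_⟩
  have h1 : W.map (aug K G ^ (n + 1)).mkQ = ⊤ := by
    rw [Submodule.map_mkQ_eq_top, sup_comm]
    exact top_le_iff.1 h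
  rw [← h1]
  exact hW.map _

end Fin

end Pool.Agent.H168Z.Vershik
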