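import Pool.Agent.H168Z.Vershik.Mean

/-!
The operators. A state is a list of recorded bits and an integer counter. The shift moves the
counter. The operator `X` records a bit, resets the counter, and weighs the old counter `s` with a
binomial coefficient that vanishes for `|s| ≤ r k`, where `r k` is the 2-adic valuation of the
position `k` of the new bit.
-/

set_option autoImplicit false

namespace Pool.Agent.H168Z.Vershik

abbrev F : Type := ZMod 2

abbrev U : Type := List Bool × ℤ → F

def r (k : ℕ) : ℕ := padicValNat 2 k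

def d (k : ℕ) (b : Bool) : ℕ := 2 * r k + 1 + b.toNat

noncomputable def lam (k : ℕ) (b : Bool) (s : ℤ) : F :=
  ((Ring.choose (s + (r k : ℤ)) (d k b) : ℤ) : F)

def deg : List Bool → ℕ
  | [] => 0
  | b :: β => deg β + d (β.length + 1) b + 1

lemma lam_zero (k : ℕ) (b : Bool) (s : ℤ) (hs : |s| ≤ r k) : lam k b s = 0 := by
  rw [abs_le] at hs
  obtain ⟨n, hn⟩ : ∃ n : ℕ, s + (r k : ℤ) = n := ⟨(s + r k).toNat, by omega⟩
  unfold lam
  rw [hn, Ring.choose_natCast, Nat.choose_eq_zero_of_lt (by unfold d; omega)]
  simp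

/-- The counter value that selects the bit `b` at position `k`. -/
def sel (k : ℕ) (b : Bool) : ℕ := r k + 1 + b.toNat

lemma lam_sel (k : ℕ) (b c : Bool) : lam k c (sel k b) = if c = b then 1 else 0 := by
  have h : ((sel k b : ℕ) : ℤ) + (r k : ℤ) = ((d k b : ℕ) : ℤ) := by
    unfold sel d; push_cast; ring
  unfold lam
  rw [h, Ring.choose_natCast]
  cases b <;> cases c
  · simp
  · rw [Nat.choose_eq_zero_of_lt (by simp [d])]; simp
  · have h1 : d k true = d k false + 1 := by simp [d]
    rw [h1, Nat.choose_succ_self_right]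
    have h2 : d k false + 1 = 2 * (r k + 1) := by simp [d]; ring
    rw [h2]
    push_cast
    have h3 : (2 : F) = 0 := rfl
    rw [h3]; simp
  · simp

lemma deg_le (β : List Bool) : deg β ≤ 3 * β.length + 2 * padicValNat 2 β.length.factorial := by
  induction β with
  | nil => simp [deg]
  | cons b β ih =>
    have h1 : padicValNat 2 (β.length + 1).factorial =
        padicValNat 2 (β.length + 1) + padicValNat 2 β.length.factorial := by
      rw [Nat.factorial_succ, padicValNat.mul (by omega) (Nat.factorial_ne_zero _)]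
    have h2 : b.toNat ≤ 1 := Bool.toNat_le b
    simp only [deg, d, r, List.length_cons]
    omega

lemma deg_le' (β : List Bool) : deg β ≤ 5 * β.length := by
  have h1 := deg_le β
  have h2 := sub_one_mul_padicValNat_factorial (p := 2) β.length
  omega

def shift (i : ℤ) : Module.End F U where
  toFun f := fun p => f (p.1, p.2 + i)
  map_add' _ _ := rfl
  map_smul' _ _ := rfl

lemma shift_mul (i j : ℤ) : shift i * shift j = shift (i + j) := by
  refine LinearMap.ext fun f => funext fun p => ?_
  change f (p.1, p.2 + i + j) = f (p.1, p.2 + (i + j))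
  rw [add_assoc]

lemma shift_zero : shift 0 = 1 := by
  refine LinearMap.ext fun f => funext fun p => ?_
  change f (p.1, p.2 + 0) = f p
  rw [add_zero]

noncomputable def X : Module.End F U where
  toFun f := fun p => ∑ b : Bool, lam (p.1.length + 1) b p.2 * f (b :: p.1, 0)
  map_add' f g := by
    funext p
    simp only [Pi.add_apply, mul_add, Finset.sum_add_distrib]
  map_smul' c f := by
    funext p
    simp only [Pi.smul_apply, smul_eq_mul, RingHom.id_apply, Finset.mul_sum]
    exact Finset.sum_congr rfl fun b _ => by ring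

/-- The conjugates of `X` by the shifts. -/
noncomputable def Xc (i : ℤ) : Module.End F U := shift i * X * shift (-i)

lemma Xc_apply (i : ℤ) (f : U) (β : List Bool) (s : ℤ) :
    Xc i f (β, s) = ∑ b : Bool, lam (β.length + 1) b (s + i) * f (b :: β, -i) := by
  change ∑ b : Bool, lam (β.length + 1) b (s + i) * f (b :: β, 0 + -i) = _
  rw [zero_add]

lemma Xc_sq (i : ℤ) : Xc i * Xc i = 0 := by
  refine LinearMap.ext fun f => funext fun p => ?_
  obtain ⟨β, s⟩ := p
  change Xc i (Xc i f) (β, s) = 0
  rw [Xc_apply]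
  refine Finset.sum_eq_zero fun b _ => ?_
  rw [Xc_apply]
  rw [Finset.sum_eq_zero fun c _ => by rw [lam_zero _ _ _ (by simp), zero_mul], mul_zero]

lemma Xc_zero : Xc 0 = X := by
  unfold Xc
  rw [neg_zero, shift_zero, one_mul, mul_one]

lemma word_aux (N : ℕ) (w : List ℤ) (hw : ∀ i ∈ w, |i| ≤ N) (f : U) :
    ∀ (β : List Bool) (s : ℤ), |s| ≤ N →
      (∃ j, 1 ≤ j ∧ j ≤ w.length ∧ 2 * N ≤ r (β.length + j)) →
      (w.map Xc).prod f (β, s) = 0 := by
  induction w with
  | nil => rintro β s _ ⟨j, h1, h2, _⟩; simp at h2; omega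
  | cons i w ih =>
    rintro β s hs ⟨j, h1, h2, h3⟩
    rw [List.map_cons, List.prod_cons]
    change Xc i ((w.map Xc).prod f) (β, s) = 0
    rw [Xc_apply]
    have hi := hw i (by simp)
    refine Finset.sum_eq_zero fun b _ => ?_
    rcases Nat.eq_or_lt_of_le h1 with rfl | h4
    · rw [lam_zero, zero_mul]
      have := abs_add_le s i
      have h5 : ((2 * N : ℕ) : ℤ) ≤ r (β.length + 1) := by exact_mod_cast h3
      push_cast at h5
      linarith
    · rw [ih (fun x hx => hw x (by simp [hx])) (b :: β) (-i) (by rwa [abs_neg])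
        ⟨j - 1, by omega, by simp at h2; omega, by
          rw [List.length_cons, show β.length + 1 + (j - 1) = β.length + j by omega]; exact h3⟩,
        mul_zero]

lemma exists_pos (m N : ℕ) : ∃ j, 1 ≤ j ∧ j ≤ 2 ^ N ∧ N ≤ r (m + j) := by
  have hp : 0 < 2 ^ N := by positivity
  have h1 := Nat.mod_lt m hp
  have h2 := Nat.div_add_mod m (2 ^ N)
  refine ⟨2 ^ N - m % 2 ^ N, by omega, by omega, ?_⟩
  unfold r
  rw [← padicValNat_dvd_iff_le (by omega)]
  refine ⟨m / 2 ^ N + 1, ?_⟩
  rw [mul_add, mul_one]
  omega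

lemma word_zero (N : ℕ) (w : List ℤ) (hw : ∀ i ∈ w, |i| ≤ N) (hl : 2 ^ (2 * N) < w.length) :
    (w.map Xc).prod = 0 := by
  refine LinearMap.ext fun f => funext fun p => ?_
  obtain ⟨β, s⟩ := p
  cases w with
  | nil => simp at hl
  | cons i w =>
    rw [List.map_cons, List.prod_cons]
    change Xc i ((w.map Xc).prod f) (β, s) = 0
    rw [Xc_apply]
    refine Finset.sum_eq_zero fun b _ => ?_
    obtain ⟨j, h1, h2, h3⟩ := exists_pos (b :: β).length (2 * N)
    rw [word_aux N w (fun x hx => hw x (by simp [hx])) f (b :: β) (-i)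
      (by rw [abs_neg]; exact hw i (by simp)) ⟨j, h1, by simp at hl; omega, h3⟩, mul_zero]

/-- The span of the words in the conjugates `Xc (-i)`, `0 ≤ i ≤ N`. -/
noncomputable def words (N : ℕ) : Submodule F (Module.End F U) :=
  Submodule.span F ((fun w : List (Fin (N + 1)) => ((w.map fun i => -(i.1 : ℤ)).map Xc).prod) ''
    {w | w.length ≤ 2 ^ (2 * N)})

lemma words_finite (N : ℕ) : Finite (words N) := by
  have : Module.Finite F (words N) :=
    Module.Finite.span_of_finite F ((List.finite_length_le _ _).image _)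
  exact Module.finite_of_finite F

lemma one_mem_words (N : ℕ) : (1 : Module.End F U) ∈ words N :=
  Submodule.subset_span ⟨[], by simp, by simp⟩

lemma Xc_mul_mem (N i : ℕ) (hi : i ≤ N) (x : Module.End F U) (hx : x ∈ words N) :
    Xc (-(i : ℤ)) * x ∈ words N := by
  induction hx using Submodule.span_induction with
  | mem x hx =>
    obtain ⟨w, _, rfl⟩ := hx
    have h1 : Xc (-(i : ℤ)) * ((w.map fun j : Fin (N + 1) => -(j.1 : ℤ)).map Xc).prod =
        (((((⟨i, by omega⟩ : Fin (N + 1)) :: w).map fun j : Fin (N + 1) => -(j.1 : ℤ))).map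
          Xc).prod := by
      simp
    beta_reduce
    rw [h1]
    by_cases hl : ((⟨i, by omega⟩ : Fin (N + 1)) :: w).length ≤ 2 ^ (2 * N)
    · exact Submodule.subset_span ⟨_, hl, rfl⟩
    · rw [word_zero N _ _ (by rw [List.length_map]; omega)]
      · exact Submodule.zero_mem _
      · intro j hj
        rw [List.mem_map] at hj
        obtain ⟨k, _, rfl⟩ := hj
        have := k.2
        rw [abs_neg, abs_of_nonneg (by positivity)]
        omega
  | zero => rw [mul_zero]; exact Submodule.zero_mem _
  | add x y _ _ hx hy => rw [mul_add]; exact Submodule.add_mem _ hx hy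
  | smul c x _ hx => rw [mul_smul_comm]; exact Submodule.smul_mem _ _ hx

/-- The forward difference. -/
def D : Module.End F (ℤ → F) where
  toFun g := fun s => g (s + 1) - g s
  map_add' g h := by funext s; simp only [Pi.add_apply]; ring
  map_smul' c g := by funext s; simp only [Pi.smul_apply, smul_eq_mul, RingHom.id_apply]; ring

lemma D_choose (c : ℤ) (j : ℕ) :
    (D ^ (j + 1)) (fun s => ((Ring.choose (s + c) j : ℤ) : F)) = 0 := by
  induction j with
  | zero =>
    funext s
    change ((Ring.choose (s + 1 + c) 0 : ℤ) : F) - ((Ring.choose (s + c) 0 : ℤ) : F) = 0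
    simp
  | succ j ih =>
    rw [pow_succ, Module.End.mul_apply]
    have : D (fun s => ((Ring.choose (s + c) (j + 1) : ℤ) : F)) =
        fun s => ((Ring.choose (s + c) j : ℤ) : F) := by
      funext s
      change ((Ring.choose (s + 1 + c) (j + 1) : ℤ) : F) -
        ((Ring.choose (s + c) (j + 1) : ℤ) : F) = _
      rw [show s + 1 + c = s + c + 1 by ring, Ring.choose_succ_succ]
      push_cast
      ring
    rw [this, ih]

lemma D_pow_mono {g : ℤ → F} {m n : ℕ} (h : (D ^ m) g = 0) (hmn : m ≤ n) : (D ^ n) g = 0 := by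
  obtain ⟨k, rfl⟩ := Nat.exists_eq_add_of_le' hmn
  rw [pow_add, Module.End.mul_apply, h, map_zero]

lemma D_pow_shift (n : ℕ) (g : ℤ → F) (i : ℤ) :
    (D ^ n) (fun s => g (s + i)) = fun s => (D ^ n) g (s + i) := by
  induction n with
  | zero => rfl
  | succ n ih =>
    rw [pow_succ', Module.End.mul_apply, ih]
    funext s
    change (D ^ n) g (s + 1 + i) - (D ^ n) g (s + i) =
      (D ^ n) g (s + i + 1) - (D ^ n) g (s + i)
    rw [add_right_comm]

/-- The functions of degree less than `m`. -/
def Ul (m : ℕ) : Submodule F U where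
  carrier := {f | ∀ β : List Bool, (D ^ (m - deg β)) (fun s => f (β, s)) = 0}
  add_mem' := by
    intro f g hf hg β
    have : (fun s => (f + g) (β, s)) = (fun s => f (β, s)) + fun s => g (β, s) := rfl
    rw [this, map_add, hf β, hg β, add_zero]
  zero_mem' := fun β => map_zero _
  smul_mem' := by
    intro c f hf β
    have : (fun s => (c • f) (β, s)) = c • fun s => f (β, s) := rfl
    rw [this, map_smul, hf β, smul_zero]

lemma Ul_mono {m n : ℕ} (h : m ≤ n) : Ul m ≤ Ul n :=
  fun _ hf β => D_pow_mono (hf β) (by omega)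

lemma Ul_zero (f : U) (hf : f ∈ Ul 0) : f = 0 := by
  funext p
  have := congrFun (hf p.1) p.2
  simpa using this

lemma shift_mem (i : ℤ) (m : ℕ) (f : U) (hf : f ∈ Ul m) : shift i f ∈ Ul m := by
  intro β
  have h := D_pow_shift (m - deg β) (fun s => f (β, s)) i
  rw [hf β] at h
  exact h

lemma shift_low (m : ℕ) (f : U) (hf : f ∈ Ul (m + 1)) : (shift 1 - 1) f ∈ Ul m := by
  intro β
  change (D ^ (m - deg β)) (D fun s => f (β, s)) = 0
  rw [← Module.End.mul_apply, ← pow_succ]
  exact D_pow_mono (hf β) (by omega)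

lemma X_low (m : ℕ) (f : U) (hf : f ∈ Ul (m + 1)) : X f ∈ Ul m := by
  intro β
  have : (fun s => X f (β, s)) =
      ∑ b : Bool, f (b :: β, 0) • fun s => lam (β.length + 1) b s := by
    funext s
    change ∑ b : Bool, lam (β.length + 1) b s * f (b :: β, 0) = _
    rw [Finset.sum_apply]
    exact Finset.sum_congr rfl fun b _ => by simp [mul_comm]
  rw [this, map_sum]
  refine Finset.sum_eq_zero fun b _ => ?_
  rw [map_smul]
  by_cases h : m + 1 ≤ deg (b :: β)
  · have h1 := hf (b :: β)
    rw [Nat.sub_eq_zero_of_le h] at h1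
    have h2 : f (b :: β, 0) = 0 := congrFun h1 0
    rw [h2, zero_smul]
  · have h1 : d (β.length + 1) b + 1 ≤ m - deg β := by
      simp only [deg] at h
      omega
    have h2 := D_pow_mono (D_choose (r (β.length + 1)) (d (β.length + 1) b)) h1
    have h3 : (D ^ (m - deg β)) (fun s => lam (β.length + 1) b s) = 0 := h2
    rw [h3, smul_zero]

/-- The operators that lower the degree by `k`. -/
def Low (k : ℕ) : Submodule F (Module.End F U) where
  carrier := {x | ∀ m, ∀ f ∈ Ul (m + k), x f ∈ Ul m}
  add_mem' := fun hx hy m f hf => (Ul m).add_mem (hx m f hf) (hy m f hf)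
  zero_mem' := fun m _ _ => (Ul m).zero_mem
  smul_mem' := fun c _ hx m f hf => (Ul m).smul_mem c (hx m f hf)

lemma Low_mul {k l : ℕ} {x y : Module.End F U} (hx : x ∈ Low k) (hy : y ∈ Low l) :
    x * y ∈ Low (k + l) :=
  fun m f hf => hx m _ (hy (m + k) f (by rwa [add_assoc]))

lemma Low_mono {x : Module.End F U} (hx : x ∈ Low 1) : x ∈ Low 0 :=
  fun m f hf => hx m f (Ul_mono (by omega) hf)

lemma one_mem_Low : (1 : Module.End F U) ∈ Low 0 := fun _ _ hf => hf

open Classical in
/-- The indicator function of a list of bits. -/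
noncomputable def delta (γ : List Bool) : U := fun p => if p.1 = γ then 1 else 0

lemma delta_mem (γ : List Bool) : delta γ ∈ Ul (deg γ + 1) := by
  intro β
  by_cases h : β = γ
  · subst h
    rw [Nat.add_sub_cancel_left, pow_one]
    funext s
    change delta β (β, s + 1) - delta β (β, s) = 0
    simp [delta]
  · have : (fun s => delta γ (β, s)) = 0 := by
      funext s
      simp [delta, h]
    rw [this, map_zero]

lemma select (f : U) (β : List Bool) (b : Bool) :
    (shift (sel (β.length + 1) b) * X) f (β, 0) = f (b :: β, 0) := by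
  change ∑ c : Bool, lam (β.length + 1) c (0 + (sel (β.length + 1) b : ℤ)) * f (c :: β, 0) = _
  simp only [zero_add, lam_sel]
  cases b <;> simp

end Pool.Agent.H168Z.Vershik
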